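import Pool.Agent.W811.LW.Stm

set_option autoImplicit false
open Finset

namespace Pool.Agent.W727.LW

open Pool.Agent.W811.LW

noncomputable def s (x : ℝ) : ℝ := √x - √(-x)

theorem sqrt_add_le' (y L : ℝ) (hL : 0 ≤ L) : √(y + L) ≤ √y + √L := by
  apply Real.sqrt_le_iff.mpr
  refine ⟨by positivity, ?_⟩
  have h1 := Real.sq_sqrt hL
  have h2 := Real.sqrt_nonneg y
  have h3 := Real.sqrt_nonneg L
  rcases le_total 0 y with hy | hy
  · have h4 := Real.sq_sqrt hy
    nlinarith [mul_nonneg h2 h3]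
  · rw [Real.sqrt_eq_zero_of_nonpos hy]
    nlinarith

theorem s_var (y L : ℝ) (hL : 0 ≤ L) : s (y + L) - s y ≤ 2 * √L := by
  unfold s
  have h1 := sqrt_add_le' y L hL
  have h2 := sqrt_add_le' (-(y + L)) L hL
  have h3 : -(y + L) + L = -y := by ring
  rw [h3] at h2
  linarith

theorem term_nonneg (x : ℝ) (hx : 0 ≤ x) : rs (max |x| 1) ≤ s (x + 1) - s (x - 1) := by
  unfold s rs
  rw [abs_of_nonneg hx, Real.sqrt_eq_zero_of_nonpos (show -(x + 1) ≤ 0 by linarith)]
  rcases le_total 1 x with h | h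
  · rw [max_eq_left h, Real.sqrt_eq_zero_of_nonpos (show -(x - 1) ≤ 0 by linarith)]
    have hp := Real.sq_sqrt (show 0 ≤ x + 1 by linarith)
    have hq := Real.sq_sqrt (show 0 ≤ x - 1 by linarith)
    have hr := Real.sq_sqrt hx
    have hp0 := Real.sqrt_nonneg (x + 1)
    have hq0 := Real.sqrt_nonneg (x - 1)
    have hr0 : 0 < √x := Real.sqrt_pos.mpr (by linarith)
    set p := √(x + 1)
    set q := √(x - 1)
    set r := √x
    have h1 : p + q ≤ 2 * r := by
      apply le_of_sq_le_sq _ (by positivity)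
      nlinarith [sq_nonneg (p - q)]
    have h2 : 0 ≤ p - q := by
      have : q ≤ p := Real.sqrt_le_sqrt (by linarith)
      linarith
    have h3 : (p - q) * (p + q) = 2 := by nlinarith
    have h4 : 1 ≤ (p - q) * r := by nlinarith
    rw [inv_le_iff_one_le_mul₀ hr0]
    linarith
  · rw [max_eq_right h, Real.sqrt_eq_zero_of_nonpos (show x - 1 ≤ 0 by linarith)]
    have h1 : 1 ≤ √(x + 1) := Real.one_le_sqrt.mpr (by linarith)
    have h2 := Real.sqrt_nonneg (-(x - 1))
    simp only [Real.sqrt_one, inv_one]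
    linarith

theorem term_le (x : ℝ) : rs (max |x| 1) ≤ s (x + 1) - s (x - 1) := by
  rcases le_total 0 x with hx | hx
  · exact term_nonneg x hx
  · have h := term_nonneg (-x) (by linarith)
    rw [abs_neg] at h
    have h1 : s (-x + 1) = - s (x - 1) := by
      unfold s
      rw [show -x + 1 = -(x - 1) by ring, neg_neg]; ring
    have h2 : s (-x - 1) = - s (x + 1) := by
      unfold s
      rw [show -x - 1 = -(x + 1) by ring, neg_neg]; ring
    rw [h1, h2] at h
    linarith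

theorem sum_le (n : ℕ) (u : ℝ) : ∑ d ∈ range n, rs (max |(d : ℝ) - u| 1) ≤ 4 * √n := by
  have h1 : ∑ d ∈ range n, rs (max |(d : ℝ) - u| 1) ≤
      ∑ d ∈ range n, ((s (((d + 1 : ℕ) : ℝ) - u) + s (((d + 1 : ℕ) : ℝ) - 1 - u)) -
        (s ((d : ℝ) - u) + s ((d : ℝ) - 1 - u))) := by
    apply Finset.sum_le_sum
    intro d _
    have h := term_le ((d : ℝ) - u)
    have h2 : ((d + 1 : ℕ) : ℝ) - u = (d : ℝ) - u + 1 := by push_cast; ring
    have h3 : ((d + 1 : ℕ) : ℝ) - 1 - u = (d : ℝ) - u := by push_cast; ring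
    have h4 : (d : ℝ) - 1 - u = (d : ℝ) - u - 1 := by ring
    rw [h2, h3, h4]
    linarith
  rw [Finset.sum_range_sub (fun d : ℕ => s ((d : ℝ) - u) + s ((d : ℝ) - 1 - u))] at h1
  have h2 := s_var ((0 : ℕ) - u) n (Nat.cast_nonneg n)
  have h3 := s_var ((0 : ℕ) - 1 - u) n (Nat.cast_nonneg n)
  have h4 : ((0 : ℕ) : ℝ) - u + n = (n : ℝ) - u := by push_cast; ring
  have h5 : ((0 : ℕ) : ℝ) - 1 - u + n = (n : ℝ) - 1 - u := by push_cast; ring
  rw [h4] at h2
  rw [h5] at h3
  linarith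

theorem rs_mul {x : ℝ} (hx : 0 ≤ x) (y : ℝ) : rs (x * y) = rs x * rs y := by
  unfold rs
  rw [Real.sqrt_mul hx, mul_inv]

theorem rs_anti {x y : ℝ} (hx : 0 < x) (h : x ≤ y) : rs y ≤ rs x := by
  unfold rs
  exact inv_anti₀ (Real.sqrt_pos.mpr hx) (Real.sqrt_le_sqrt h)

theorem rs_nonneg (x : ℝ) : 0 ≤ rs x := by unfold rs; positivity

theorem rs_four : rs (1 / 4) = 2 := by
  unfold rs
  rw [show (1 / 4 : ℝ) = (1 / 2) ^ 2 by norm_num, Real.sqrt_sq (by norm_num)]; norm_num

theorem rs_fourth : rs 4 = 1 / 2 := by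
  unfold rs
  rw [show (4 : ℝ) = 2 ^ 2 by norm_num, Real.sqrt_sq (by norm_num)]; norm_num

theorem avl : AVL := by
  intro D P R a b hD hP hR hPR hab
  have hD0 : (0 : ℝ) < D := by exact_mod_cast hD
  have hP0 : 0 < P := by linarith
  have hR0 : 0 < R := by linarith
  have hrP := rs_nonneg P
  rcases le_or_gt (2 * |b|) |a| with h | h
  · have ha0 : 0 < |a| := by
      rcases hab with h1 | h1
      · exact abs_pos.mpr h1
      · have := abs_pos.mpr h1; linarith
    rw [max_eq_left (show |b| ≤ |a| by linarith [abs_nonneg b])]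
    have h1 : ∀ d ∈ range (D ^ 2),
        rs (max |P * (a + (d : ℝ) / (D : ℝ) ^ 2 * b)| |b / R|) ≤ 16 * rs P * rs |a| := by
      intro d hd
      have hd1 : (d : ℝ) / (D : ℝ) ^ 2 ≤ 1 := by
        rw [div_le_one (by positivity)]
        have := (Finset.mem_range.mp hd).le
        exact_mod_cast this
      have hd0 : 0 ≤ (d : ℝ) / (D : ℝ) ^ 2 := by positivity
      have h2 : |(d : ℝ) / (D : ℝ) ^ 2 * b| ≤ |b| := by
        rw [abs_mul, abs_of_nonneg hd0]
        nlinarith [abs_nonneg b]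
      have h3 : |a| / 4 ≤ |a + (d : ℝ) / (D : ℝ) ^ 2 * b| := by
        have h4 := abs_sub_abs_le_abs_sub a (-((d : ℝ) / (D : ℝ) ^ 2 * b))
        rw [abs_neg, sub_neg_eq_add] at h4
        linarith
      have h5 : 1 / 4 * (P * |a|) ≤ max |P * (a + (d : ℝ) / (D : ℝ) ^ 2 * b)| |b / R| := by
        apply le_trans _ (le_max_left _ _)
        rw [abs_mul, abs_of_pos hP0]
        nlinarith
      have h6 := rs_anti (by positivity) h5
      rw [rs_mul (by norm_num), rs_mul hP0.le, rs_four] at h6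
      have h7 : 0 ≤ rs P * rs |a| := mul_nonneg hrP (rs_nonneg _)
      nlinarith
    have h2 := Finset.sum_le_card_nsmul _ _ _ h1
    rw [Finset.card_range, nsmul_eq_mul] at h2
    push_cast at h2
    exact h2
  · have hb0 : 0 < |b| := by linarith [abs_nonneg a]
    have hb : b ≠ 0 := abs_pos.mp hb0
    set u : ℝ := -(a * (D : ℝ) ^ 2 / b) with hu
    have h1 : ∀ d ∈ range (D ^ 2), rs (max |P * (a + (d : ℝ) / (D : ℝ) ^ 2 * b)| |b / R|) =
        rs (|b| / R) * rs (max |(d : ℝ) - u| 1) := by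
      intro d _
      rw [← rs_mul (by positivity), mul_max_of_nonneg _ _ (by positivity), mul_one]
      have h2 : |P * (a + (d : ℝ) / (D : ℝ) ^ 2 * b)| = |b| / R * |(d : ℝ) - u| := by
        rw [← abs_of_pos hR0, ← abs_div, ← abs_mul]
        congr 1
        rw [hu]
        have h3 : P = (D : ℝ) ^ 2 / R := by rw [eq_div_iff hR0.ne']; exact hPR
        rw [h3]
        field_simp
        ring
      rw [h2, abs_div, abs_of_pos hR0]
    rw [Finset.sum_congr rfl h1, ← Finset.mul_sum]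
    have h2 := sum_le (D ^ 2) u
    push_cast at h2
    rw [Real.sqrt_sq hD0.le] at h2
    have h3 : rs (|b| / R) = D * (rs P * rs |b|) := by
      unfold rs
      rw [Real.sqrt_div hb0.le, inv_div]
      have h4 : √P * √R = D := by
        rw [← Real.sqrt_mul hP0.le, hPR, Real.sqrt_sq hD0.le]
      have h5 : 0 < √P := Real.sqrt_pos.mpr hP0
      have h6 : 0 < √|b| := Real.sqrt_pos.mpr hb0
      rw [← h4]
      field_simp
    have h4 : rs |b| * (1 / 2) ≤ rs (max |a| |b|) := by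
      have h5 : max |a| |b| ≤ |b| * 4 := max_le (by linarith) (by linarith)
      have h6 := rs_anti (lt_of_lt_of_le hb0 (le_max_right _ _)) h5
      rw [rs_mul hb0.le, rs_fourth] at h6
      exact h6
    have h7 : 0 ≤ rs P * rs |b| := mul_nonneg hrP (rs_nonneg _)
    have h8 : 0 ≤ rs (|b| / R) := rs_nonneg _
    calc rs (|b| / R) * ∑ d ∈ range (D ^ 2), rs (max |(d : ℝ) - u| 1)
        ≤ rs (|b| / R) * (4 * D) := mul_le_mul_of_nonneg_left h2 h8
      _ = (D : ℝ) ^ 2 * (4 * (rs P * rs |b|)) := by rw [h3]; ring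
      _ ≤ (D : ℝ) ^ 2 * (16 * rs P * rs (max |a| |b|)) := by
          apply mul_le_mul_of_nonneg_left _ (by positivity)
          have h9 : rs P * (rs |b| * (1 / 2)) ≤ rs P * rs (max |a| |b|) :=
            mul_le_mul_of_nonneg_left h4 hrP
          nlinarith

end Pool.Agent.W727.LW
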